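import Mathlib
import Pool.Agent.H.MP_321d0a_co.C

set_option autoImplicit false

namespace Pool.Agent.Results.MP_321d0a_co.Persp
open Finset Pool.Agent.H.MP_321d0a_co

/-- A finite matroid given by the rank axioms on the subsets of its ground set `E`. -/
structure RkMatroid (α : Type) [DecidableEq α] where
  E : Finset α
  r : Finset α → ℕ
  le_card : ∀ X ⊆ E, r X ≤ X.card
  mono : ∀ X Y, X ⊆ Y → Y ⊆ E → r X ≤ r Y
  submod : ∀ X ⊆ E, ∀ Y ⊆ E, r (X ∪ Y) + r (X ∩ Y) ≤ r X + r Y

variable {α : Type} [DecidableEq α]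

/-- Deletion of an element. -/
def RkMatroid.del (M : RkMatroid α) (e : α) : RkMatroid α where
  E := M.E.erase e
  r := M.r
  le_card X hX := M.le_card X (hX.trans (erase_subset _ _))
  mono X Y h hY := M.mono X Y h (hY.trans (erase_subset _ _))
  submod X hX Y hY := M.submod X (hX.trans (erase_subset _ _)) Y (hY.trans (erase_subset _ _))

/-- Contraction of an element of the ground set. -/
def RkMatroid.con (M : RkMatroid α) (e : α) (he : e ∈ M.E) : RkMatroid α where
  E := M.E.erase e
  r X := M.r (insert e X) - M.r {e}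
  le_card X hX := by
    have h1 := M.submod {e} (singleton_subset_iff.2 he) X (hX.trans (erase_subset _ _))
    have h2 := M.le_card X (hX.trans (erase_subset _ _))
    rw [← insert_eq] at h1; omega
  mono X Y h hY := by
    have := M.mono _ _ (insert_subset_insert e h) (insert_subset he (hY.trans (erase_subset _ _)))
    omega
  submod X hX Y hY := by
    have hX' := insert_subset he (hX.trans (erase_subset _ _))
    have hY' := insert_subset he (hY.trans (erase_subset _ _))
    have h1 := M.submod _ hX' _ hY'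
    rw [← insert_union_distrib, ← insert_inter_distrib] at h1
    have := M.mono {e} _ (singleton_subset_iff.2 (mem_insert_self e X)) hX'
    have := M.mono {e} _ (singleton_subset_iff.2 (mem_insert_self e Y)) hY'
    have := M.mono {e} (insert e (X ∩ Y)) (singleton_subset_iff.2 (mem_insert_self e _))
      ((insert_subset_insert e inter_subset_left).trans hX')
    have := M.mono {e} (insert e (X ∪ Y)) (singleton_subset_iff.2 (mem_insert_self e _))
      (by rw [insert_union_distrib]; exact union_subset hX' hY')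
    omega

/-- `M → M'` is a matroid perspective. -/
def IsPersp (M M' : RkMatroid α) : Prop :=
  M'.E = M.E ∧ ∀ A B, A ⊆ B → B ⊆ M.E → (M'.r B : ℤ) - M'.r A ≤ (M.r B : ℤ) - M.r A

/-- The Tutte polynomial of the perspective, evaluated at integers `x, y, z`. -/
def tutte (M M' : RkMatroid α) (x y z : ℤ) : ℤ :=
  ∑ X ∈ M.E.powerset, (x - 1) ^ (M'.r M.E - M'.r X) * (y - 1) ^ (X.card - M.r X) *
    z ^ ((M.r M.E - M'.r M.E) - (M.r X - M'.r X))

/-- `M = M|A ⊕ M \ A`. -/
def IsSum (M : RkMatroid α) (A : Finset α) : Prop :=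
  ∀ X ⊆ M.E, M.r X = M.r (X ∩ A) + M.r (X \ A)

def Factor (M M' : RkMatroid α) (A : Finset α) : Prop := A ⊆ M.E ∧ IsSum M A ∧ IsSum M' A

/-- The ground set is a non-empty factor and is the only one. -/
def Connected (M M' : RkMatroid α) : Prop :=
  M.E.Nonempty ∧ ∀ A, Factor M M' A → A.Nonempty → A = M.E

/-- `M` is the uniform matroid of rank `m` on its ground set (used with `m ≤ |E|`). -/
def IsUnif (M : RkMatroid α) (m : ℕ) : Prop := ∀ X ⊆ M.E, M.r X = min X.card m

/-- The extremal family: `U(1,1) → U(0,1)`, `U(k,k+1) → U(0,k+1)`, `U(k+1,k+1) → U(1,k+1)`, and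
everything reducing to these by deleting an element of a parallel pair of `M` or contracting an
element of a series pair (two-element cocircuit) of `M'`. -/
inductive Ext : RkMatroid α → RkMatroid α → Prop
  | one (M M' : RkMatroid α) : M.E.card = 1 → IsUnif M 1 → IsUnif M' 0 → Ext M M'
  | circ (M M' : RkMatroid α) (k : ℕ) : M.E.card = k + 1 → IsUnif M k → IsUnif M' 0 → Ext M M'
  | cocirc (M M' : RkMatroid α) (k : ℕ) :
      M.E.card = k + 1 → IsUnif M (k + 1) → IsUnif M' 1 → Ext M M'
  | par (M M' : RkMatroid α) (e f : α) : e ∈ M.E → f ∈ M.E → e ≠ f →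
      M.r {e} = 1 → M.r {f} = 1 → M.r {e, f} = 1 → Ext (M.del f) (M'.del f) → Ext M M'
  | ser (M M' : RkMatroid α) (e f : α) (hf : f ∈ M.E) (hf' : f ∈ M'.E) : e ∈ M'.E → e ≠ f →
      M'.r (M'.E.erase e) = M'.r M'.E → M'.r (M'.E.erase f) = M'.r M'.E →
      M'.r ((M'.E.erase e).erase f) < M'.r M'.E → Ext (M.con f hf) (M'.con f hf') → Ext M M'

lemma r_empty (M : RkMatroid α) : M.r ∅ = 0 := by
  have := M.le_card ∅ (empty_subset _); simpa using this

def toRP (M M' : RkMatroid α) (h : IsPersp M M') : RP α where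
  E := M.E
  r X := M.r (X ∩ M.E)
  s X := M'.r (X ∩ M.E)
  r0 := by simp [r_empty]
  s0 := by simp [r_empty]
  c1 X Y hXY := by
    have := M'.mono _ _ (inter_subset_inter_right hXY : X ∩ M.E ⊆ Y ∩ M.E)
      (by rw [h.1]; exact inter_subset_right)
    omega
  c2 X Y hXY := h.2 _ _ (inter_subset_inter_right hXY) inter_subset_right
  c3 X Y hXY := by
    have h0 : X ∩ M.E ⊆ Y ∩ M.E := inter_subset_inter_right hXY
    have h1 := M.submod (X ∩ M.E) inter_subset_right ((Y ∩ M.E) \ (X ∩ M.E))
      (sdiff_subset.trans inter_subset_right)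
    have h2 := M.le_card ((Y ∩ M.E) \ (X ∩ M.E)) (sdiff_subset.trans inter_subset_right)
    have h3 := card_sdiff_add_card_eq_card h0
    rw [union_sdiff_of_subset h0] at h1
    omega
  sr X Y := by
    have h1 := M.submod (X ∩ M.E) inter_subset_right (Y ∩ M.E) inter_subset_right
    rw [← union_inter_distrib_right, ← inter_inter_distrib_right] at h1
    omega
  ss X Y := by
    have h1 := M'.submod (X ∩ M.E) (by rw [h.1]; exact inter_subset_right) (Y ∩ M.E)
      (by rw [h.1]; exact inter_subset_right)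
    rw [← union_inter_distrib_right, ← inter_inter_distrib_right] at h1
    omega

lemma to_r {M M' : RkMatroid α} (h : IsPersp M M') {X : Finset α} (hX : X ⊆ M.E) :
    (toRP M M' h).r X = M.r X := by simp only [toRP, inter_eq_left.2 hX]

lemma to_s {M M' : RkMatroid α} (h : IsPersp M M') {X : Finset α} (hX : X ⊆ M.E) :
    (toRP M M' h).s X = M'.r X := by simp only [toRP, inter_eq_left.2 hX]

lemma to_F {M M' : RkMatroid α} (h : IsPersp M M') : (toRP M M' h).F = tutte M M' 0 0 1 := by
  unfold RP.F tutte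
  refine sum_congr rfl fun X hX => ?_
  have hX' : X ⊆ M.E := mem_powerset.1 hX
  have h1 := M'.mono X M.E hX' (by rw [h.1])
  have h2 := M.le_card X hX'
  have hE : (toRP M M' h).E = M.E := rfl
  rw [hE, to_s h hX', to_s h (Subset.refl _), to_r h hX', one_pow, mul_one, zero_sub, ← pow_add,
    ← sg_nat]
  congr 1; omega

lemma to_dr {M M' : RkMatroid α} (h : IsPersp M M') :
    (toRP M M' h).dr = (M.r M.E - M'.r M.E : ℕ) := by
  have hE : (toRP M M' h).E = M.E := rfl
  have := (toRP M M' h).sler M.E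
  unfold RP.dr
  rw [hE]
  rw [to_s h (Subset.refl _), to_r h (Subset.refl _)] at *
  omega

lemma to_fac {M M' : RkMatroid α} (h : IsPersp M M') (A : Finset α) :
    (toRP M M' h).Fac A ↔ Factor M M' A := by
  have hE : (toRP M M' h).E = M.E := rfl
  constructor
  · rintro ⟨h0, h1, h2⟩
    refine ⟨h0, fun X hX => ?_, fun X hX => ?_⟩
    · have := (toRP M M' h).sep_r h1 X hX h0
      rw [to_r h hX, to_r h (inter_subset_left.trans hX), to_r h (sdiff_subset.trans hX)] at this
      omega
    · rw [h.1] at hX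
      have := (toRP M M' h).sep_s h2 X hX h0
      rw [to_s h hX, to_s h (inter_subset_left.trans hX), to_s h (sdiff_subset.trans hX)] at this
      omega
  · rintro ⟨h0, h1, h2⟩
    have a1 := h1 M.E (Subset.refl _)
    have a2 := h2 M.E (by rw [h.1])
    rw [inter_eq_right.2 h0] at a1 a2
    refine ⟨h0, ?_, ?_⟩
    · rw [hE, to_r h h0, to_r h sdiff_subset, to_r h (Subset.refl _)]; omega
    · rw [hE, to_s h h0, to_s h sdiff_subset, to_s h (Subset.refl _)]; omega

lemma to_conn {M M' : RkMatroid α} (h : IsPersp M M') : (toRP M M' h).Conn ↔ Connected M M' := by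
  unfold RP.Conn Connected; simp only [to_fac]; rfl

lemma persp_del {M M' : RkMatroid α} (h : IsPersp M M') (f : α) : IsPersp (M.del f) (M'.del f) :=
  ⟨by simp only [RkMatroid.del, h.1], fun A B hAB hB => h.2 A B hAB (hB.trans (erase_subset _ _))⟩

lemma persp_con {M M' : RkMatroid α} (h : IsPersp M M') (f : α) (hf : f ∈ M.E) (hf' : f ∈ M'.E) :
    IsPersp (M.con f hf) (M'.con f hf') := by
  refine ⟨by simp only [RkMatroid.con, h.1], fun A B hAB hB => ?_⟩
  have hB' : insert f B ⊆ M.E := insert_subset hf (hB.trans (erase_subset _ _))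
  have hA' : insert f A ⊆ M.E := (insert_subset_insert f hAB).trans hB'
  have := h.2 _ _ (insert_subset_insert f hAB) hB'
  have := M.mono {f} _ (singleton_subset_iff.2 (mem_insert_self f A)) hA'
  have := M.mono {f} _ (singleton_subset_iff.2 (mem_insert_self f B)) hB'
  have := M'.mono {f} _ (singleton_subset_iff.2 (mem_insert_self f A)) (by rw [h.1]; exact hA')
  have := M'.mono {f} _ (singleton_subset_iff.2 (mem_insert_self f B)) (by rw [h.1]; exact hB')
  simp only [RkMatroid.con]; omega

lemma to_del {M M' : RkMatroid α} (h : IsPersp M M') (f : α) :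
    toRP _ _ (persp_del h f) = (toRP M M' h).del f := by
  have h1 : ∀ Z : Finset α, Z.erase f ∩ M.E = Z ∩ M.E.erase f := by
    intro Z; ext x; simp only [mem_inter, mem_erase]; tauto
  ext X
  · rfl
  · simp only [toRP, RP.del, RkMatroid.del, h1]
  · simp only [toRP, RP.del, RkMatroid.del, h1]

lemma to_con {M M' : RkMatroid α} (h : IsPersp M M') (f : α) (hf : f ∈ M.E) (hf' : f ∈ M'.E) :
    toRP _ _ (persp_con h f hf hf') = (toRP M M' h).con f := by
  have h1 : ∀ Z : Finset α, insert f (Z ∩ M.E.erase f) = insert f Z ∩ M.E := by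
    intro Z; ext x; simp only [mem_inter, mem_erase, mem_insert]
    by_cases hx : x = f
    · subst hx; simp [hf]
    · simp [hx]
  have h2 : ({f} : Finset α) ∩ M.E = {f} := inter_eq_left.2 (singleton_subset_iff.2 hf)
  have h3 : ∀ Z : Finset α, {f} ⊆ insert f Z ∩ M.E := by intro Z; simp [hf]
  ext X
  · rfl
  · have := M.mono _ _ (h3 X) inter_subset_right
    simp only [toRP, RP.con, RkMatroid.con, h1, h2]; omega
  · have := M'.mono _ _ (h3 X) (by rw [h.1]; exact inter_subset_right)
    simp only [toRP, RP.con, RkMatroid.con, h1, h2]; omega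

lemma to_par {M M' : RkMatroid α} (h : IsPersp M M') (e f : α) : (toRP M M' h).Par e f ↔
    e ∈ M.E ∧ f ∈ M.E ∧ e ≠ f ∧ M.r {e} = 1 ∧ M.r {f} = 1 ∧ M.r {e, f} = 1 := by
  unfold RP.Par
  refine and_congr_right fun he => and_congr_right fun hf => and_congr_right fun _ => ?_
  rw [to_r h (singleton_subset_iff.2 he), to_r h (singleton_subset_iff.2 hf),
    to_r h (insert_subset he (singleton_subset_iff.2 hf))]
  omega

lemma to_ser {M M' : RkMatroid α} (h : IsPersp M M') (e f : α) : (toRP M M' h).Ser e f ↔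
    e ∈ M.E ∧ f ∈ M.E ∧ e ≠ f ∧ M'.r (M.E.erase e) = M'.r M.E ∧ M'.r (M.E.erase f) = M'.r M.E ∧
      M'.r ((M.E.erase e).erase f) < M'.r M.E := by
  unfold RP.Ser
  refine and_congr_right fun he => and_congr_right fun hf => and_congr_right fun _ => ?_
  have hE : (toRP M M' h).E = M.E := rfl
  have h1 := (toRP M M' h).s_er f (M.E.erase e)
  have h2 := (toRP M M' h).sler {f}
  have h3 := (toRP M M' h).r1 f
  rw [hE]
  rw [to_s h (erase_subset _ _), to_s h ((erase_subset _ _).trans (erase_subset _ _))] at h1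
  rw [to_s h (erase_subset e _), to_s h (erase_subset f _), to_s h (Subset.refl _),
    to_s h ((erase_subset _ _).trans (erase_subset _ _))]
  omega

lemma sum_one (E X0 : Finset α) (h0 : X0 ⊆ E) (g : Finset α → ℤ)
    (hg : ∀ X ⊆ E, g X = if X = X0 then 1 else 0) :
    ∑ X ∈ E.powerset, sg (g X) = 2 ^ E.card - 2 := by
  have : ∀ X ∈ E.powerset, sg (g X) = 1 - if X = X0 then 2 else 0 := by
    intro X hX
    rw [hg X (mem_powerset.1 hX)]
    split_ifs
    · rw [sg_one]; norm_num
    · rw [sg_zero]; norm_num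
  rw [sum_congr rfl this, sum_sub_distrib, sum_ite_eq' , if_pos (mem_powerset.2 h0)]
  simp

lemma sound {M M' : RkMatroid α} (hx : Ext M M') : ∀ h : IsPersp M M',
    (toRP M M' h).F = 2 ^ (M.r M.E - M'.r M.E + 1) - 2 := by
  induction hx with
  | one M M' h1 h2 h3 =>
    intro h
    have hE : (toRP M M' h).E = M.E := rfl
    have a1 := h2 M.E (Subset.refl _)
    have a2 := h3 M.E (by rw [h.1])
    have : ∀ X ∈ M.E.powerset, sg ((toRP M M' h).s M.E - (toRP M M' h).s X + X.card -
        (toRP M M' h).r X) = 1 := by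
      intro X hX
      have hX' := mem_powerset.1 hX
      have b1 := h2 X hX'
      have b2 := h3 X (by rw [h.1]; exact hX')
      have := card_le_card hX'
      rw [to_s h hX', to_r h hX', to_s h (Subset.refl _), ← sg_zero]
      congr 1; omega
    unfold RP.F
    rw [hE, sum_congr rfl this, a1, a2, h1]
    simp [h1]
  | circ M M' k h1 h2 h3 =>
    intro h
    have hE : (toRP M M' h).E = M.E := rfl
    have a1 := h2 M.E (Subset.refl _)
    have a2 := h3 M.E (by rw [h.1])
    unfold RP.F
    rw [hE, sum_one M.E M.E (Subset.refl _), h1, show M.r M.E - M'.r M.E = k by omega]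
    intro X hX
    have b1 := h2 X hX
    have b2 := h3 X (by rw [h.1]; exact hX)
    rw [to_s h hX, to_r h hX, to_s h (Subset.refl _)]
    split_ifs with hc
    · subst hc; omega
    · have := card_lt_card (Finset.ssubset_iff_subset_ne.2 ⟨hX, hc⟩)
      omega
  | cocirc M M' k h1 h2 h3 =>
    intro h
    have hE : (toRP M M' h).E = M.E := rfl
    have a1 := h2 M.E (Subset.refl _)
    have a2 := h3 M.E (by rw [h.1])
    unfold RP.F
    rw [hE, sum_one M.E ∅ (empty_subset _), h1, show M.r M.E - M'.r M.E = k by omega]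
    intro X hX
    have b1 := h2 X hX
    have b2 := h3 X (by rw [h.1]; exact hX)
    have := card_le_card hX
    rw [to_s h hX, to_r h hX, to_s h (Subset.refl _)]
    split_ifs with hc
    · subst hc; simp only [card_empty] at *; omega
    · have := card_pos.2 (nonempty_iff_ne_empty.2 hc)
      omega
  | par M M' e f he hf hne h1 h2 h3 _ ih =>
    intro h
    obtain ⟨p1, p2, _⟩ := (toRP M M' h).par_step ((to_par h e f).2 ⟨he, hf, hne, h1, h2, h3⟩)
    rw [← to_del h f] at p1 p2
    rw [to_dr, to_dr] at p2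
    rw [p1, ih (persp_del h f), Nat.cast_injective p2]
  | ser M M' e f hf hf' he hne h1 h2 h3 _ ih =>
    intro h
    rw [h.1] at he h1 h2 h3
    obtain ⟨p1, p2, _⟩ := (toRP M M' h).ser_step ((to_ser h e f).2 ⟨he, hf, hne, h1, h2, h3⟩)
    rw [← to_con h f hf hf'] at p1 p2
    rw [to_dr, to_dr] at p2
    rw [p1, ih (persp_con h f hf hf'), Nat.cast_injective p2]

lemma complete : ∀ (n : ℕ) (M M' : RkMatroid α) (h : IsPersp M M') (k : ℕ), M.E.card = n →
    (toRP M M' h).Conn → (toRP M M' h).dr = (k + 1 : ℕ) → (toRP M M' h).F = 2 ^ (k + 2) - 2 →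
    Ext M M' := by
  intro n
  induction n using Nat.strong_induction_on with
  | _ n ih =>
  intro M M' h k hn hc hk hF
  by_cases hp : ∃ e f, (toRP M M' h).Par e f
  · obtain ⟨e, f, hp⟩ := hp
    obtain ⟨p1, p2, p3⟩ := (toRP M M' h).par_step hp
    obtain ⟨he, hf, hne, h1, h2, h3⟩ := (to_par h e f).1 hp
    rw [← to_del h f] at p1 p2 p3
    exact Ext.par M M' e f he hf hne h1 h2 h3 (ih _ (hn ▸ card_erase_lt_of_mem hf) _ _
      (persp_del h f) k rfl (p3 hc) (p2.trans hk) (p1 ▸ hF))
  by_cases hs : ∃ e f, (toRP M M' h).Ser e f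
  · obtain ⟨e, f, hp⟩ := hs
    obtain ⟨p1, p2, p3⟩ := (toRP M M' h).ser_step hp
    obtain ⟨he, hf, hne, h1, h2, h3⟩ := (to_ser h e f).1 hp
    have hf' : f ∈ M'.E := by rw [h.1]; exact hf
    rw [← to_con h f hf hf'] at p1 p2 p3
    refine Ext.ser M M' e f hf hf' (by rw [h.1]; exact he) hne (by rw [h.1]; exact h1)
      (by rw [h.1]; exact h2) (by rw [h.1]; exact h3) (ih _ (hn ▸ card_erase_lt_of_mem hf) _ _
      (persp_con h f hf hf') k rfl (p3 hc) (p2.trans hk) (p1 ▸ hF))
  push Not at hp hs
  have hE : (toRP M M' h).E = M.E := rfl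
  rcases classify _ k hc (fun e f => ⟨hp e f, hs e f⟩) hk hF with ⟨h1, h2⟩ | ⟨h1, h2⟩ | ⟨h1, h2⟩
  · refine Ext.one M M' h1 (fun X hX => ?_) (fun X hX => ?_)
    · have := (h2 X hX).1
      have := card_le_card hX
      rw [hE] at h1
      rw [to_r h hX] at *; omega
    · rw [h.1] at hX
      have := (h2 X hX).2
      rw [to_s h hX] at *; omega
  · refine Ext.circ M M' (k + 1) h1 (fun X hX => ?_) (fun X hX => ?_)
    · have := (h2 X hX).1
      rw [to_r h hX] at *; omega
    · rw [h.1] at hX
      have := (h2 X hX).2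
      rw [to_s h hX] at *; omega
  · refine Ext.cocirc M M' (k + 1) h1 (fun X hX => ?_) (fun X hX => ?_)
    · have := (h2 X hX).1
      have := card_le_card hX
      rw [hE] at h1
      rw [to_r h hX] at *; omega
    · rw [h.1] at hX
      have := (h2 X hX).2
      rw [to_s h hX] at *; omega

def unif (n m : ℕ) : RkMatroid ℕ where
  E := range n
  r X := min X.card m
  le_card X _ := min_le_left _ _
  mono X Y h _ := by have := card_le_card h; omega
  submod X _ Y _ := by
    have := card_union_add_card_inter X Y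
    have := card_le_card (inter_subset_left : X ∩ Y ⊆ X)
    have := card_le_card (inter_subset_right : X ∩ Y ⊆ Y)
    omega

theorem result :
    (∀ (α : Type) [DecidableEq α] (M M' : RkMatroid α) (k : ℕ), IsPersp M M' → Connected M M' →
      M.r M.E = M'.r M.E + k →
      2 ^ (k + 1) - 2 ≤ tutte M M' 0 0 1 ∧ (k = 0 → tutte M M' 0 0 1 = 2 ^ (k + 1) - 2) ∧
      (1 ≤ k → (tutte M M' 0 0 1 = 2 ^ (k + 1) - 2 ↔ Ext M M'))) ∧
    ∀ k : ℕ, ∃ M M' : RkMatroid ℕ, IsPersp M M' ∧ Connected M M' ∧ M.r M.E = M'.r M.E + k ∧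
      tutte M M' 0 0 1 = 2 ^ (k + 1) - 2 := by
  refine ⟨fun α _ M M' k h hc hk => ?_, fun k => ?_⟩
  · have hd : (toRP M M' h).dr = k := by rw [to_dr]; omega
    have hc' := (to_conn h).2 hc
    rw [← to_F h]
    refine ⟨(toRP M M' h).cb k hd hc', fun h0 => ?_, fun h1 => ⟨fun hF => ?_, fun hx => ?_⟩⟩
    · subst h0
      obtain ⟨n, hn⟩ : ∃ n, M.E.card = n + 1 := ⟨M.E.card - 1, by have := card_pos.2 hc.1; omega⟩
      rw [F_zero n (toRP M M' h) hn hd]; norm_num
    · obtain ⟨j, rfl⟩ : ∃ j, k = j + 1 := ⟨k - 1, by omega⟩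
      exact complete _ M M' h j rfl hc' hd hF
    · rw [sound hx h, show M.r M.E - M'.r M.E = k by omega]
  · have hp : IsPersp (unif (k + 1) k) (unif (k + 1) 0) := by
      refine ⟨rfl, fun A B hAB _ => ?_⟩
      have := card_le_card hAB
      simp only [unif]; omega
    have hk : (unif (k + 1) k).r (unif (k + 1) k).E = (unif (k + 1) 0).r (unif (k + 1) k).E + k := by
      simp [unif]
    refine ⟨unif (k + 1) k, unif (k + 1) 0, hp, ⟨⟨0, by simp [unif]⟩, fun A hA hne => ?_⟩, hk, ?_⟩
    · by_contra hc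
      have h1 := hA.2.1 _ (Subset.refl _)
      have h2 := card_lt_card (Finset.ssubset_iff_subset_ne.2 ⟨hA.1, hc⟩)
      have h3 := card_sdiff_add_card_eq_card hA.1
      have h4 := card_pos.2 hne
      rw [inter_eq_right.2 hA.1] at h1
      simp only [unif, card_range] at h1 h2 h3
      omega
    · rw [← to_F hp, sound (Ext.circ _ _ k (by simp [unif]) (fun X _ => rfl) (fun X _ => rfl)) hp,
        hk]
      simp

end Pool.Agent.Results.MP_321d0a_co.Persp
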